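import Pool.Agent.H78.QuatPlus

namespace Pool.Agent.Results.MP_7dcdb2_al.Counter

open Quaternion Matrix Pool.Agent.H78.Quat

/-- An invariant nonnegative subspace of a plus-matrix with no invariant maximal nonnegative extension. -/
theorem result : ∃ (n p q v : ℕ) (H A : Matrix (Fin n) (Fin n) ℍ[ℝ]) (M₀ : Sub n),
    Hᴴ = H ∧ Inertia H p q v ∧ 0 < v ∧ IsPlus H A ∧ Inv A M₀ ∧ Nonneg H M₀ ∧
    ¬ ∃ M : Sub n, M₀ ≤ M ∧ Inv A M ∧ Nonneg H M ∧ Module.finrank ℍ[ℝ]ᵐᵒᵖ M = p + v :=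
  plus_main

end Pool.Agent.Results.MP_7dcdb2_al.Counter
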